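import Pool.Agent.Helper2_CN3.Stmts
import Pool.Agent.Helper2_CN2.IChg

/-!
Squad CN3, module Q_NB: generators of norm 2
-/

noncomputable section

namespace Pool.Agent.CN3.H97

open Pool.Agent.H25Cong Pool.Agent.CON Pool.Agent.CN2

/-- the certificate: T transforms G into a Gram matrix with diagonal 2, the node i is joined to the
node par i before it -/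
def nbok (m : ℕ) (G T T' : List (List ℤ)) (par : List ℕ) : Bool :=
  chg m G T T' (mulT (mulT T G) T) && (List.range m).all fun i =>
    decide (ent (mulT (mulT T G) T) i i = 2) && (decide (i = 0) ||
      (decide (par.getD i 0 < i) && (decide (ent (mulT (mulT T G) T) i (par.getD i 0) = 1) ||
        decide (ent (mulT (mulT T G) T) i (par.getD i 0) = -1))))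

lemma nb_of {n : ℕ} {L : Submodule ℤ (V n)} {G T T' : List (List ℤ)} {par : List ℕ}
    (hchg : I_CHG) (hG : GrL L G) (h : nbok (n + 1) G T T' par = true) : ∃ c, NB L c := by
  simp only [nbok, Bool.and_eq_true, List.all_eq_true, List.mem_range, Bool.or_eq_true,
    decide_eq_true_eq] at h
  obtain ⟨h1, h2⟩ := h
  obtain ⟨-, c, hc1, hc2, hc3⟩ := hchg n L G T T' _ hG h1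
  refine ⟨c, hc1, hc2, fun i hi => ?_, fun i hi hi0 => ?_⟩
  · rw [hc3 i hi i hi, (h2 i hi).1]
    norm_num
  · obtain ⟨-, h3⟩ := h2 i hi
    rcases h3 with h3 | ⟨h3, h4⟩
    · omega
    · refine ⟨par.getD i 0, h3, ?_⟩
      rw [hc3 i hi _ (by omega)]
      rcases h4 with h4 | h4
      · left; rw [h4]; norm_num
      · right; rw [h4]; norm_num

/-- the certificates exist -/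
lemma nb_data : ∀ l ∈ reps, ∃ T T' par,
    nbok ((l.map fun T => T.1.rk).sum + 2) (blk hyp (gr l)) T T' par = true := by
  intro l hl
  simp only [reps, List.mem_cons, List.not_mem_nil, or_false] at hl
  rcases hl with rfl | rfl | rfl | rfl | rfl | rfl | rfl | rfl | rfl | rfl | rfl | rfl | rfl
  · exact ⟨
    [[1, -1, 0, 0, 0, 0, 0, 0, 0, 0, 0, 0, 0, 0],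
    [1, 0, -2, -3, -4, -5, -6, -3, -4, -2, 0, 0, 0, 0],
    [0, 0, 1, 0, 0, 0, 0, 0, 0, 0, 0, 0, 0, 0],
    [0, 0, 0, 1, 0, 0, 0, 0, 0, 0, 0, 0, 0, 0],
    [0, 0, 0, 0, 1, 0, 0, 0, 0, 0, 0, 0, 0, 0],
    [0, 0, 0, 0, 0, 1, 0, 0, 0, 0, 0, 0, 0, 0],
    [0, 0, 0, 0, 0, 0, 1, 0, 0, 0, 0, 0, 0, 0],
    [0, 0, 0, 0, 0, 0, 0, 1, 0, 0, 0, 0, 0, 0],
    [0, 0, 0, 0, 0, 0, 0, 0, 1, 0, 0, 0, 0, 0],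
    [0, 0, 0, 0, 0, 0, 0, 0, 0, 1, 0, 0, 0, 0],
    [1, 0, 0, 0, 0, 0, 0, 0, 0, 0, 1, 0, 0, 0],
    [0, 0, 0, 0, 0, 0, 0, 0, 0, 0, 0, 1, 0, 0],
    [0, 0, 0, 0, 0, 0, 0, 0, 0, 0, 0, 0, 1, 0],
    [0, 0, 0, 0, 0, 0, 0, 0, 0, 0, 0, 0, 0, 1]],
    [[0, 1, 2, 3, 4, 5, 6, 3, 4, 2, 0, 0, 0, 0],
    [-1, 1, 2, 3, 4, 5, 6, 3, 4, 2, 0, 0, 0, 0],
    [0, 0, 1, 0, 0, 0, 0, 0, 0, 0, 0, 0, 0, 0],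
    [0, 0, 0, 1, 0, 0, 0, 0, 0, 0, 0, 0, 0, 0],
    [0, 0, 0, 0, 1, 0, 0, 0, 0, 0, 0, 0, 0, 0],
    [0, 0, 0, 0, 0, 1, 0, 0, 0, 0, 0, 0, 0, 0],
    [0, 0, 0, 0, 0, 0, 1, 0, 0, 0, 0, 0, 0, 0],
    [0, 0, 0, 0, 0, 0, 0, 1, 0, 0, 0, 0, 0, 0],
    [0, 0, 0, 0, 0, 0, 0, 0, 1, 0, 0, 0, 0, 0],
    [0, 0, 0, 0, 0, 0, 0, 0, 0, 1, 0, 0, 0, 0],
    [0, -1, -2, -3, -4, -5, -6, -3, -4, -2, 1, 0, 0, 0],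
    [0, 0, 0, 0, 0, 0, 0, 0, 0, 0, 0, 1, 0, 0],
    [0, 0, 0, 0, 0, 0, 0, 0, 0, 0, 0, 0, 1, 0],
    [0, 0, 0, 0, 0, 0, 0, 0, 0, 0, 0, 0, 0, 1]],
    [0, 0, 1, 2, 3, 4, 5, 6, 6, 8, 0, 10, 11, 11], by decide +kernel⟩
  · exact ⟨
    [[1, -1, 0, 0, 0, 0, 0, 0, 0, 0, 0, 0, 0],
    [1, 0, -2, -3, -4, -5, -6, -3, -4, -2, 0, 0, 0],
    [0, 0, 1, 0, 0, 0, 0, 0, 0, 0, 0, 0, 0],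
    [0, 0, 0, 1, 0, 0, 0, 0, 0, 0, 0, 0, 0],
    [0, 0, 0, 0, 1, 0, 0, 0, 0, 0, 0, 0, 0],
    [0, 0, 0, 0, 0, 1, 0, 0, 0, 0, 0, 0, 0],
    [0, 0, 0, 0, 0, 0, 1, 0, 0, 0, 0, 0, 0],
    [0, 0, 0, 0, 0, 0, 0, 1, 0, 0, 0, 0, 0],
    [0, 0, 0, 0, 0, 0, 0, 0, 1, 0, 0, 0, 0],
    [0, 0, 0, 0, 0, 0, 0, 0, 0, 1, 0, 0, 0],
    [1, 0, 0, 0, 0, 0, 0, 0, 0, 0, 1, 0, 0],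
    [0, 0, 0, 0, 0, 0, 0, 0, 0, 0, 0, 1, 0],
    [0, 0, 0, 0, 0, 0, 0, 0, 0, 0, 0, 0, 1]],
    [[0, 1, 2, 3, 4, 5, 6, 3, 4, 2, 0, 0, 0],
    [-1, 1, 2, 3, 4, 5, 6, 3, 4, 2, 0, 0, 0],
    [0, 0, 1, 0, 0, 0, 0, 0, 0, 0, 0, 0, 0],
    [0, 0, 0, 1, 0, 0, 0, 0, 0, 0, 0, 0, 0],
    [0, 0, 0, 0, 1, 0, 0, 0, 0, 0, 0, 0, 0],
    [0, 0, 0, 0, 0, 1, 0, 0, 0, 0, 0, 0, 0],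
    [0, 0, 0, 0, 0, 0, 1, 0, 0, 0, 0, 0, 0],
    [0, 0, 0, 0, 0, 0, 0, 1, 0, 0, 0, 0, 0],
    [0, 0, 0, 0, 0, 0, 0, 0, 1, 0, 0, 0, 0],
    [0, 0, 0, 0, 0, 0, 0, 0, 0, 1, 0, 0, 0],
    [0, -1, -2, -3, -4, -5, -6, -3, -4, -2, 1, 0, 0],
    [0, 0, 0, 0, 0, 0, 0, 0, 0, 0, 0, 1, 0],
    [0, 0, 0, 0, 0, 0, 0, 0, 0, 0, 0, 0, 1]],
    [0, 0, 1, 2, 3, 4, 5, 6, 6, 8, 0, 10, 11], by decide +kernel⟩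
  · exact ⟨
    [[1, -1, 0, 0, 0, 0, 0, 0, 0, 0, 0, 0, 0],
    [1, 0, -2, -3, -4, -5, -6, -3, -4, -2, 0, 0, 0],
    [0, 0, 1, 0, 0, 0, 0, 0, 0, 0, 0, 0, 0],
    [0, 0, 0, 1, 0, 0, 0, 0, 0, 0, 0, 0, 0],
    [0, 0, 0, 0, 1, 0, 0, 0, 0, 0, 0, 0, 0],
    [0, 0, 0, 0, 0, 1, 0, 0, 0, 0, 0, 0, 0],
    [0, 0, 0, 0, 0, 0, 1, 0, 0, 0, 0, 0, 0],
    [0, 0, 0, 0, 0, 0, 0, 1, 0, 0, 0, 0, 0],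
    [0, 0, 0, 0, 0, 0, 0, 0, 1, 0, 0, 0, 0],
    [0, 0, 0, 0, 0, 0, 0, 0, 0, 1, 0, 0, 0],
    [1, 0, 0, 0, 0, 0, 0, 0, 0, 0, 1, 0, 0],
    [1, 0, 0, 0, 0, 0, 0, 0, 0, 0, 0, 1, 0],
    [1, 0, 0, 0, 0, 0, 0, 0, 0, 0, 0, 0, 1]],
    [[0, 1, 2, 3, 4, 5, 6, 3, 4, 2, 0, 0, 0],
    [-1, 1, 2, 3, 4, 5, 6, 3, 4, 2, 0, 0, 0],
    [0, 0, 1, 0, 0, 0, 0, 0, 0, 0, 0, 0, 0],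
    [0, 0, 0, 1, 0, 0, 0, 0, 0, 0, 0, 0, 0],
    [0, 0, 0, 0, 1, 0, 0, 0, 0, 0, 0, 0, 0],
    [0, 0, 0, 0, 0, 1, 0, 0, 0, 0, 0, 0, 0],
    [0, 0, 0, 0, 0, 0, 1, 0, 0, 0, 0, 0, 0],
    [0, 0, 0, 0, 0, 0, 0, 1, 0, 0, 0, 0, 0],
    [0, 0, 0, 0, 0, 0, 0, 0, 1, 0, 0, 0, 0],
    [0, 0, 0, 0, 0, 0, 0, 0, 0, 1, 0, 0, 0],
    [0, -1, -2, -3, -4, -5, -6, -3, -4, -2, 1, 0, 0],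
    [0, -1, -2, -3, -4, -5, -6, -3, -4, -2, 0, 1, 0],
    [0, -1, -2, -3, -4, -5, -6, -3, -4, -2, 0, 0, 1]],
    [0, 0, 1, 2, 3, 4, 5, 6, 6, 8, 0, 0, 0], by decide +kernel⟩
  · exact ⟨
    [[1, -1, 0, 0, 0, 0, 0, 0, 0, 0, 0, 0],
    [1, 0, -2, -3, -4, -5, -6, -3, -4, -2, 0, 0],
    [0, 0, 1, 0, 0, 0, 0, 0, 0, 0, 0, 0],
    [0, 0, 0, 1, 0, 0, 0, 0, 0, 0, 0, 0],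
    [0, 0, 0, 0, 1, 0, 0, 0, 0, 0, 0, 0],
    [0, 0, 0, 0, 0, 1, 0, 0, 0, 0, 0, 0],
    [0, 0, 0, 0, 0, 0, 1, 0, 0, 0, 0, 0],
    [0, 0, 0, 0, 0, 0, 0, 1, 0, 0, 0, 0],
    [0, 0, 0, 0, 0, 0, 0, 0, 1, 0, 0, 0],
    [0, 0, 0, 0, 0, 0, 0, 0, 0, 1, 0, 0],
    [1, 0, 0, 0, 0, 0, 0, 0, 0, 0, 1, 0],
    [0, 0, 0, 0, 0, 0, 0, 0, 0, 0, 0, 1]],
    [[0, 1, 2, 3, 4, 5, 6, 3, 4, 2, 0, 0],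
    [-1, 1, 2, 3, 4, 5, 6, 3, 4, 2, 0, 0],
    [0, 0, 1, 0, 0, 0, 0, 0, 0, 0, 0, 0],
    [0, 0, 0, 1, 0, 0, 0, 0, 0, 0, 0, 0],
    [0, 0, 0, 0, 1, 0, 0, 0, 0, 0, 0, 0],
    [0, 0, 0, 0, 0, 1, 0, 0, 0, 0, 0, 0],
    [0, 0, 0, 0, 0, 0, 1, 0, 0, 0, 0, 0],
    [0, 0, 0, 0, 0, 0, 0, 1, 0, 0, 0, 0],
    [0, 0, 0, 0, 0, 0, 0, 0, 1, 0, 0, 0],
    [0, 0, 0, 0, 0, 0, 0, 0, 0, 1, 0, 0],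
    [0, -1, -2, -3, -4, -5, -6, -3, -4, -2, 1, 0],
    [0, 0, 0, 0, 0, 0, 0, 0, 0, 0, 0, 1]],
    [0, 0, 1, 2, 3, 4, 5, 6, 6, 8, 0, 10], by decide +kernel⟩
  · exact ⟨
    [[1, -1, 0, 0, 0, 0, 0, 0, 0, 0, 0, 0],
    [1, 0, -2, -3, -4, -5, -6, -3, -4, -2, 0, 0],
    [0, 0, 1, 0, 0, 0, 0, 0, 0, 0, 0, 0],
    [0, 0, 0, 1, 0, 0, 0, 0, 0, 0, 0, 0],
    [0, 0, 0, 0, 1, 0, 0, 0, 0, 0, 0, 0],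
    [0, 0, 0, 0, 0, 1, 0, 0, 0, 0, 0, 0],
    [0, 0, 0, 0, 0, 0, 1, 0, 0, 0, 0, 0],
    [0, 0, 0, 0, 0, 0, 0, 1, 0, 0, 0, 0],
    [0, 0, 0, 0, 0, 0, 0, 0, 1, 0, 0, 0],
    [0, 0, 0, 0, 0, 0, 0, 0, 0, 1, 0, 0],
    [1, 0, 0, 0, 0, 0, 0, 0, 0, 0, 1, 0],
    [1, 0, 0, 0, 0, 0, 0, 0, 0, 0, 0, 1]],
    [[0, 1, 2, 3, 4, 5, 6, 3, 4, 2, 0, 0],
    [-1, 1, 2, 3, 4, 5, 6, 3, 4, 2, 0, 0],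
    [0, 0, 1, 0, 0, 0, 0, 0, 0, 0, 0, 0],
    [0, 0, 0, 1, 0, 0, 0, 0, 0, 0, 0, 0],
    [0, 0, 0, 0, 1, 0, 0, 0, 0, 0, 0, 0],
    [0, 0, 0, 0, 0, 1, 0, 0, 0, 0, 0, 0],
    [0, 0, 0, 0, 0, 0, 1, 0, 0, 0, 0, 0],
    [0, 0, 0, 0, 0, 0, 0, 1, 0, 0, 0, 0],
    [0, 0, 0, 0, 0, 0, 0, 0, 1, 0, 0, 0],
    [0, 0, 0, 0, 0, 0, 0, 0, 0, 1, 0, 0],
    [0, -1, -2, -3, -4, -5, -6, -3, -4, -2, 1, 0],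
    [0, -1, -2, -3, -4, -5, -6, -3, -4, -2, 0, 1]],
    [0, 0, 1, 2, 3, 4, 5, 6, 6, 8, 0, 0], by decide +kernel⟩
  · exact ⟨
    [[1, -1, 0, 0, 0, 0, 0, 0, 0, 0, 0, 0],
    [1, 0, -2, -3, -4, -5, -6, -3, -4, -2, 0, 0],
    [0, 0, 1, 0, 0, 0, 0, 0, 0, 0, 0, 0],
    [0, 0, 0, 1, 0, 0, 0, 0, 0, 0, 0, 0],
    [0, 0, 0, 0, 1, 0, 0, 0, 0, 0, 0, 0],
    [0, 0, 0, 0, 0, 1, 0, 0, 0, 0, 0, 0],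
    [0, 0, 0, 0, 0, 0, 1, 0, 0, 0, 0, 0],
    [0, 0, 0, 0, 0, 0, 0, 1, 0, 0, 0, 0],
    [0, 0, 0, 0, 0, 0, 0, 0, 1, 0, 0, 0],
    [0, 0, 0, 0, 0, 0, 0, 0, 0, 1, 0, 0],
    [1, 0, 0, 0, 0, 0, 0, 0, 0, 0, 1, 0],
    [1, 1, 0, 0, 0, 0, 0, 0, 0, 0, 0, 1]],
    [[0, 1, 2, 3, 4, 5, 6, 3, 4, 2, 0, 0],
    [-1, 1, 2, 3, 4, 5, 6, 3, 4, 2, 0, 0],
    [0, 0, 1, 0, 0, 0, 0, 0, 0, 0, 0, 0],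
    [0, 0, 0, 1, 0, 0, 0, 0, 0, 0, 0, 0],
    [0, 0, 0, 0, 1, 0, 0, 0, 0, 0, 0, 0],
    [0, 0, 0, 0, 0, 1, 0, 0, 0, 0, 0, 0],
    [0, 0, 0, 0, 0, 0, 1, 0, 0, 0, 0, 0],
    [0, 0, 0, 0, 0, 0, 0, 1, 0, 0, 0, 0],
    [0, 0, 0, 0, 0, 0, 0, 0, 1, 0, 0, 0],
    [0, 0, 0, 0, 0, 0, 0, 0, 0, 1, 0, 0],
    [0, -1, -2, -3, -4, -5, -6, -3, -4, -2, 1, 0],
    [1, -2, -4, -6, -8, -10, -12, -6, -8, -4, 0, 1]],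
    [0, 0, 1, 2, 3, 4, 5, 6, 6, 8, 0, 1], by decide +kernel⟩
  · exact ⟨
    [[1, -1, 0, 0, 0, 0, 0, 0, 0, 0, 0, 0],
    [1, 0, -1, -2, -2, -2, -1, -1, 0, 0, 0, 0],
    [0, 0, 0, 1, 0, 0, 0, 0, 0, 0, 0, 0],
    [0, 0, 1, 0, 0, 0, 0, 0, 0, 0, 0, 0],
    [0, 0, 0, 0, 1, 0, 0, 0, 0, 0, 0, 0],
    [0, 0, 0, 0, 0, 1, 0, 0, 0, 0, 0, 0],
    [0, 0, 0, 0, 0, 0, 1, 0, 0, 0, 0, 0],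
    [0, 0, 0, 0, 0, 0, 0, 1, 0, 0, 0, 0],
    [1, 0, 0, 0, 0, 0, 0, 0, 1, 0, 0, 0],
    [0, 0, 0, 0, 0, 0, 0, 0, 0, 1, 0, 0],
    [0, 0, 0, 0, 0, 0, 0, 0, 0, 0, 1, 0],
    [0, 0, 0, 0, 0, 0, 0, 0, 0, 0, 0, 1]],
    [[0, 1, 2, 1, 2, 2, 1, 1, 0, 0, 0, 0],
    [-1, 1, 2, 1, 2, 2, 1, 1, 0, 0, 0, 0],
    [0, 0, 0, 1, 0, 0, 0, 0, 0, 0, 0, 0],
    [0, 0, 1, 0, 0, 0, 0, 0, 0, 0, 0, 0],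
    [0, 0, 0, 0, 1, 0, 0, 0, 0, 0, 0, 0],
    [0, 0, 0, 0, 0, 1, 0, 0, 0, 0, 0, 0],
    [0, 0, 0, 0, 0, 0, 1, 0, 0, 0, 0, 0],
    [0, 0, 0, 0, 0, 0, 0, 1, 0, 0, 0, 0],
    [0, -1, -2, -1, -2, -2, -1, -1, 1, 0, 0, 0],
    [0, 0, 0, 0, 0, 0, 0, 0, 0, 1, 0, 0],
    [0, 0, 0, 0, 0, 0, 0, 0, 0, 0, 1, 0],
    [0, 0, 0, 0, 0, 0, 0, 0, 0, 0, 0, 1]],
    [0, 0, 1, 2, 2, 4, 5, 5, 0, 8, 9, 9], by decide +kernel⟩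
  · exact ⟨
    [[1, -1, 0, 0, 0, 0, 0, 0, 0, 0, 0],
    [1, 0, -2, -3, -4, -5, -6, -3, -4, -2, 0],
    [0, 0, 1, 0, 0, 0, 0, 0, 0, 0, 0],
    [0, 0, 0, 1, 0, 0, 0, 0, 0, 0, 0],
    [0, 0, 0, 0, 1, 0, 0, 0, 0, 0, 0],
    [0, 0, 0, 0, 0, 1, 0, 0, 0, 0, 0],
    [0, 0, 0, 0, 0, 0, 1, 0, 0, 0, 0],
    [0, 0, 0, 0, 0, 0, 0, 1, 0, 0, 0],
    [0, 0, 0, 0, 0, 0, 0, 0, 1, 0, 0],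
    [0, 0, 0, 0, 0, 0, 0, 0, 0, 1, 0],
    [1, 0, 0, 0, 0, 0, 0, 0, 0, 0, 1]],
    [[0, 1, 2, 3, 4, 5, 6, 3, 4, 2, 0],
    [-1, 1, 2, 3, 4, 5, 6, 3, 4, 2, 0],
    [0, 0, 1, 0, 0, 0, 0, 0, 0, 0, 0],
    [0, 0, 0, 1, 0, 0, 0, 0, 0, 0, 0],
    [0, 0, 0, 0, 1, 0, 0, 0, 0, 0, 0],
    [0, 0, 0, 0, 0, 1, 0, 0, 0, 0, 0],
    [0, 0, 0, 0, 0, 0, 1, 0, 0, 0, 0],
    [0, 0, 0, 0, 0, 0, 0, 1, 0, 0, 0],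
    [0, 0, 0, 0, 0, 0, 0, 0, 1, 0, 0],
    [0, 0, 0, 0, 0, 0, 0, 0, 0, 1, 0],
    [0, -1, -2, -3, -4, -5, -6, -3, -4, -2, 1]],
    [0, 0, 1, 2, 3, 4, 5, 6, 6, 8, 0], by decide +kernel⟩
  · exact ⟨
    [[1, -1, 0, 0, 0, 0, 0, 0, 0, 0, 0],
    [1, 0, -2, -3, -4, -5, -6, -3, -4, -2, 0],
    [0, 0, 1, 0, 0, 0, 0, 0, 0, 0, 0],
    [0, 0, 0, 1, 0, 0, 0, 0, 0, 0, 0],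
    [0, 0, 0, 0, 1, 0, 0, 0, 0, 0, 0],
    [0, 0, 0, 0, 0, 1, 0, 0, 0, 0, 0],
    [0, 0, 0, 0, 0, 0, 1, 0, 0, 0, 0],
    [0, 0, 0, 0, 0, 0, 0, 1, 0, 0, 0],
    [0, 0, 0, 0, 0, 0, 0, 0, 1, 0, 0],
    [0, 0, 0, 0, 0, 0, 0, 0, 0, 1, 0],
    [1, 1, 0, 0, 0, 0, 0, 0, 0, 0, 1]],
    [[0, 1, 2, 3, 4, 5, 6, 3, 4, 2, 0],
    [-1, 1, 2, 3, 4, 5, 6, 3, 4, 2, 0],
    [0, 0, 1, 0, 0, 0, 0, 0, 0, 0, 0],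
    [0, 0, 0, 1, 0, 0, 0, 0, 0, 0, 0],
    [0, 0, 0, 0, 1, 0, 0, 0, 0, 0, 0],
    [0, 0, 0, 0, 0, 1, 0, 0, 0, 0, 0],
    [0, 0, 0, 0, 0, 0, 1, 0, 0, 0, 0],
    [0, 0, 0, 0, 0, 0, 0, 1, 0, 0, 0],
    [0, 0, 0, 0, 0, 0, 0, 0, 1, 0, 0],
    [0, 0, 0, 0, 0, 0, 0, 0, 0, 1, 0],
    [1, -2, -4, -6, -8, -10, -12, -6, -8, -4, 1]],
    [0, 0, 1, 2, 3, 4, 5, 6, 6, 8, 1], by decide +kernel⟩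
  · exact ⟨
    [[1, -1, 0, 0, 0, 0, 0, 0, 0, 0, 0],
    [1, 0, -2, -3, -4, -5, -6, -3, -4, -2, 0],
    [0, 0, 1, 0, 0, 0, 0, 0, 0, 0, 0],
    [0, 0, 0, 1, 0, 0, 0, 0, 0, 0, 0],
    [0, 0, 0, 0, 1, 0, 0, 0, 0, 0, 0],
    [0, 0, 0, 0, 0, 1, 0, 0, 0, 0, 0],
    [0, 0, 0, 0, 0, 0, 1, 0, 0, 0, 0],
    [0, 0, 0, 0, 0, 0, 0, 1, 0, 0, 0],
    [0, 0, 0, 0, 0, 0, 0, 0, 1, 0, 0],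
    [0, 0, 0, 0, 0, 0, 0, 0, 0, 1, 0],
    [1, 2, 0, 0, 0, 0, 0, 0, 0, 0, 1]],
    [[0, 1, 2, 3, 4, 5, 6, 3, 4, 2, 0],
    [-1, 1, 2, 3, 4, 5, 6, 3, 4, 2, 0],
    [0, 0, 1, 0, 0, 0, 0, 0, 0, 0, 0],
    [0, 0, 0, 1, 0, 0, 0, 0, 0, 0, 0],
    [0, 0, 0, 0, 1, 0, 0, 0, 0, 0, 0],
    [0, 0, 0, 0, 0, 1, 0, 0, 0, 0, 0],
    [0, 0, 0, 0, 0, 0, 1, 0, 0, 0, 0],
    [0, 0, 0, 0, 0, 0, 0, 1, 0, 0, 0],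
    [0, 0, 0, 0, 0, 0, 0, 0, 1, 0, 0],
    [0, 0, 0, 0, 0, 0, 0, 0, 0, 1, 0],
    [2, -3, -6, -9, -12, -15, -18, -9, -12, -6, 1]],
    [0, 0, 1, 2, 3, 4, 5, 6, 6, 8, 0], by decide +kernel⟩
  · exact ⟨
    [[1, -1, 0, 0, 0, 0, 0, 0, 0, 0, 0],
    [1, 0, -1, -2, -3, -4, -2, -3, -2, 0, 0],
    [0, 0, 0, 0, 0, 0, 0, 0, 1, 0, 0],
    [0, 0, 0, 0, 0, 0, 0, 1, 0, 0, 0],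
    [0, 0, 0, 0, 0, 1, 0, 0, 0, 0, 0],
    [0, 0, 0, 0, 1, 0, 0, 0, 0, 0, 0],
    [0, 0, 0, 1, 0, 0, 0, 0, 0, 0, 0],
    [0, 0, 1, 0, 0, 0, 0, 0, 0, 0, 0],
    [0, 0, 0, 0, 0, 0, 1, 0, 0, 0, 0],
    [1, 0, 0, 0, 0, 0, 0, 0, 0, 1, 0],
    [1, 0, 0, 0, 0, 0, 0, 0, 0, 0, 1]],
    [[0, 1, 2, 3, 4, 3, 2, 1, 2, 0, 0],
    [-1, 1, 2, 3, 4, 3, 2, 1, 2, 0, 0],
    [0, 0, 0, 0, 0, 0, 0, 1, 0, 0, 0],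
    [0, 0, 0, 0, 0, 0, 1, 0, 0, 0, 0],
    [0, 0, 0, 0, 0, 1, 0, 0, 0, 0, 0],
    [0, 0, 0, 0, 1, 0, 0, 0, 0, 0, 0],
    [0, 0, 0, 0, 0, 0, 0, 0, 1, 0, 0],
    [0, 0, 0, 1, 0, 0, 0, 0, 0, 0, 0],
    [0, 0, 1, 0, 0, 0, 0, 0, 0, 0, 0],
    [0, -1, -2, -3, -4, -3, -2, -1, -2, 1, 0],
    [0, -1, -2, -3, -4, -3, -2, -1, -2, 0, 1]],
    [0, 0, 1, 2, 3, 4, 5, 6, 4, 0, 0], by decide +kernel⟩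
  · exact ⟨
    [[1, -1, 0, 0, 0, 0, 0, 0, 0, 0, 0],
    [1, 0, -1, -2, -2, -1, -1, 0, 0, 0, 0],
    [0, 0, 0, 1, 0, 0, 0, 0, 0, 0, 0],
    [0, 0, 1, 0, 0, 0, 0, 0, 0, 0, 0],
    [0, 0, 0, 0, 1, 0, 0, 0, 0, 0, 0],
    [0, 0, 0, 0, 0, 1, 0, 0, 0, 0, 0],
    [0, 0, 0, 0, 0, 0, 1, 0, 0, 0, 0],
    [1, 0, 0, 0, 0, 0, 0, 1, 0, 0, 0],
    [0, 0, 0, 0, 0, 0, 0, 0, 1, 0, 0],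
    [0, 0, 0, 0, 0, 0, 0, 0, 0, 1, 0],
    [0, 0, 0, 0, 0, 0, 0, 0, 0, 0, 1]],
    [[0, 1, 2, 1, 2, 1, 1, 0, 0, 0, 0],
    [-1, 1, 2, 1, 2, 1, 1, 0, 0, 0, 0],
    [0, 0, 0, 1, 0, 0, 0, 0, 0, 0, 0],
    [0, 0, 1, 0, 0, 0, 0, 0, 0, 0, 0],
    [0, 0, 0, 0, 1, 0, 0, 0, 0, 0, 0],
    [0, 0, 0, 0, 0, 1, 0, 0, 0, 0, 0],
    [0, 0, 0, 0, 0, 0, 1, 0, 0, 0, 0],
    [0, -1, -2, -1, -2, -1, -1, 1, 0, 0, 0],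
    [0, 0, 0, 0, 0, 0, 0, 0, 1, 0, 0],
    [0, 0, 0, 0, 0, 0, 0, 0, 0, 1, 0],
    [0, 0, 0, 0, 0, 0, 0, 0, 0, 0, 1]],
    [0, 0, 1, 2, 2, 4, 4, 0, 7, 8, 8], by decide +kernel⟩
  · exact ⟨
    [[1, -1, 0, 0, 0, 0, 0, 0, 0, 0, 0],
    [1, 0, -1, -2, -1, -1, 0, 0, 0, 0, 0],
    [0, 0, 0, 1, 0, 0, 0, 0, 0, 0, 0],
    [0, 0, 1, 0, 0, 0, 0, 0, 0, 0, 0],
    [0, 0, 0, 0, 1, 0, 0, 0, 0, 0, 0],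
    [0, 0, 0, 0, 0, 1, 0, 0, 0, 0, 0],
    [1, 0, 0, 0, 0, 0, 1, 0, 0, 0, 0],
    [0, 0, 0, 0, 0, 0, 0, 1, 0, 0, 0],
    [0, 0, 0, 0, 0, 0, 0, 0, 1, 0, 0],
    [0, 0, 0, 0, 0, 0, 0, 0, 0, 1, 0],
    [1, 0, 0, 0, 0, 0, 0, 0, 0, 0, 1]],
    [[0, 1, 2, 1, 1, 1, 0, 0, 0, 0, 0],
    [-1, 1, 2, 1, 1, 1, 0, 0, 0, 0, 0],
    [0, 0, 0, 1, 0, 0, 0, 0, 0, 0, 0],
    [0, 0, 1, 0, 0, 0, 0, 0, 0, 0, 0],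
    [0, 0, 0, 0, 1, 0, 0, 0, 0, 0, 0],
    [0, 0, 0, 0, 0, 1, 0, 0, 0, 0, 0],
    [0, -1, -2, -1, -1, -1, 1, 0, 0, 0, 0],
    [0, 0, 0, 0, 0, 0, 0, 1, 0, 0, 0],
    [0, 0, 0, 0, 0, 0, 0, 0, 1, 0, 0],
    [0, 0, 0, 0, 0, 0, 0, 0, 0, 1, 0],
    [0, -1, -2, -1, -1, -1, 0, 0, 0, 0, 1]],
    [0, 0, 1, 2, 2, 2, 0, 6, 7, 7, 0], by decide +kernel⟩

/-- module Q_NB -/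
theorem q_nb : Q_NB := by
  intro n L l hl hn hG
  obtain ⟨T, T', par, h⟩ := nb_data l hl
  have e : (l.map fun T => T.1.rk).sum + 2 = n + 1 := by omega
  rw [e] at h
  exact nb_of Pool.Agent.CN2.H2.i_chg hG h

end Pool.Agent.CN3.H97

end
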